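import Pool.Agent.H93.AA.Lift
import Pool.Agent.H42.NU.Exist
import Pool.Agent.H78.RC.Long

/-!
# Project AA: the elements `Δ_T`

`dlt_conj`: for `s ∈ T` there is `s' ∈ T` with `lw * s = s' * lw` (`exists_perm`), `ℓ (lw * s) = ℓ lw - 1`, so
`Δ = lft (lw * s) * s = s' * lft (s' * lw)`, hence `s' * Δ = Δ * s`.
`dlt_order`: the homomorphism to the integers with the value one on all generators (`bg_hom`) has the value
`ℓ (lw M T) > 0` on `Δ_T`.
-/

set_option autoImplicit false

open Finset

namespace Pool.Agent.H93.AA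

open Pool.Agent.H4.FC Pool.Agent.H78.RC H42.NU

variable {S : Type}

/-- the two notions of parabolic subgroups agree -/
theorem mem_WP_of_par (M : CoxeterMatrix S) {T : Finset S} {w : M.Group} (hw : w ∈ par M T) :
    w ∈ Pool.Agent.H73.HVN.WP M.toCoxeterSystem (T : Set S) := by
  refine (Subgroup.closure_le (K := Pool.Agent.H73.HVN.WP M.toCoxeterSystem (T : Set S))).2 ?_ hw
  rintro x ⟨v, hv, rfl⟩
  refine Subgroup.subset_closure ⟨v, hv, ?_⟩
  rw [M.toCoxeterSystem_simple]

/-- an element which commutes with the generators in `T` commutes with the lifts of the elements of `W_T` -/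
theorem lft_comm_of (M : CoxeterMatrix S) {T : Finset S} {c : BG M}
    (hc : ∀ s ∈ T, c * bgen M s = bgen M s * c) {w : M.Group} (hw : w ∈ par M T) :
    c * lft M w = lft M w * c := by
  have hred := (M.toCoxeterSystem.exists_isReduced w).choose_spec
  obtain ⟨ω, hω⟩ : ∃ ω, ω = (M.toCoxeterSystem.exists_isReduced w).choose := ⟨_, rfl⟩
  rw [← hω] at hred
  have hlft : lft M w = (ω.map (bgen M)).prod := by
    rw [hω]
    rfl
  have hmem : ∀ i ∈ ω, i ∈ (T : Set S) := by
    refine Pool.Agent.H73.HVN.mem_of_isReduced M.toCoxeterSystem hred.1 ?_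
    rw [← hred.2]
    exact mem_WP_of_par M hw
  rw [hlft]
  clear hred hω hlft
  induction ω with
  | nil => simp
  | cons i ω ih =>
    rw [List.map_cons, List.prod_cons, ← mul_assoc, hc i (hmem i List.mem_cons_self), mul_assoc,
      ih (fun j hj => hmem j (List.mem_cons_of_mem _ hj)), mul_assoc]

section

variable [Fintype S] [DecidableEq S]

/-- conjugation with `Δ_T` permutes the generators in `T`, the permutation is an involution -/
theorem dlt_conj (M : CoxeterMatrix S) {T : Finset S} (hT : Sph M T) :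
    ∃ σ : S → S, (∀ s, σ (σ s) = s) ∧ (∀ s ∈ T, σ s ∈ T) ∧
      ∀ s ∈ T, dlt M T * bgen M s = bgen M (σ s) * dlt M T := by
  obtain ⟨σ, h1, h2, h3, -⟩ := exists_perm M hT
  refine ⟨σ, h1, h2, fun s hs => ?_⟩
  have hl := lft_isLift M
  have hw := lw_spec M hT
  have hww := lw_mul_self M hT
  have hcs : ∀ i, M.toCoxeterSystem.simple i = M.simple i := fun i => by
    rw [M.toCoxeterSystem_simple]
  -- `w s = σ s w`
  have e1 : lw M T * M.simple s = M.simple (σ s) * lw M T := by
    rw [← h3 s hs, mul_assoc, hww, mul_one]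
  -- `s` is a right descent
  have hd : M.toCoxeterSystem.IsRightDescent (lw M T) s := by
    have a1 : lw M T * M.simple s ∈ par M T := mul_mem hw.1 (simple_mem_par M hs)
    have a2 := hw.2 _ a1
    have a3 := M.toCoxeterSystem.length_mul_simple_ne (lw M T) s
    rw [M.toCoxeterSystem_simple] at a3
    unfold CoxeterSystem.IsRightDescent
    rw [M.toCoxeterSystem_simple]
    exact lt_of_le_of_ne a2 a3
  have hlen := M.toCoxeterSystem.isRightDescent_iff.1 hd
  rw [hcs] at hlen
  -- `Δ = lft (w s) s`
  have e2 : dlt M T = lft M (lw M T * M.simple s) * bgen M s := by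
    have := lift_descent hl hd
    rw [hcs] at this
    exact this
  -- `Δ = s' lft (w s)`
  have e3 : dlt M T = bgen M (σ s) * lft M (lw M T * M.simple s) := by
    have a1 : lw M T = M.simple (σ s) * (lw M T * M.simple s) := by
      rw [e1, ← mul_assoc, simple_sq, one_mul]
    have a2 : M.toCoxeterSystem.length (M.simple (σ s) * (lw M T * M.simple s)) =
        M.toCoxeterSystem.length (M.simple (σ s)) +
          M.toCoxeterSystem.length (lw M T * M.simple s) := by
      rw [← a1, ← hcs (σ s), M.toCoxeterSystem.length_simple]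
      omega
    have a3 := lift_mul hl a2
    rw [← a1, ← hcs (σ s), lift_simple hl] at a3
    exact a3
  calc dlt M T * bgen M s = (bgen M (σ s) * lft M (lw M T * M.simple s)) * bgen M s := by rw [← e3]
    _ = bgen M (σ s) * (lft M (lw M T * M.simple s) * bgen M s) := mul_assoc _ _ _
    _ = bgen M (σ s) * dlt M T := by rw [← e2]

/-- `Δ_T ^ 2` is central in the subgroup generated by `T` -/
theorem dlt_sq_comm (M : CoxeterMatrix S) {T : Finset S} (hT : Sph M T) {s : S} (hs : s ∈ T) :
    dlt M T ^ 2 * bgen M s = bgen M s * dlt M T ^ 2 := by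
  obtain ⟨σ, h1, h2, h3⟩ := dlt_conj M hT
  rw [pow_two, mul_assoc, h3 s hs, ← mul_assoc, h3 (σ s) (h2 s hs), h1, mul_assoc]

theorem xg_comm (M : CoxeterMatrix S) {X Y : Irr M} (h : (nG M).Adj X Y) :
    xg M X * xg M Y = xg M Y * xg M X := by
  -- nested sets
  have key : ∀ X Y : Irr M, X.1 ⊆ Y.1 → xg M X * xg M Y = xg M Y * xg M X := by
    intro X Y hXY
    have h1 : dlt M Y.1 ^ 2 * dlt M X.1 = dlt M X.1 * dlt M Y.1 ^ 2 :=
      lft_comm_of M (fun s hs => dlt_sq_comm M Y.2.1 (hXY hs)) (lw_spec M X.2.1).1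
    have h2 : Commute (dlt M X.1) (dlt M Y.1 ^ 2) := h1.symm
    exact h2.pow_left 2
  rcases h.2 with h1 | h1 | h1
  · exact key X Y h1
  · exact (key Y X h1).symm
  · -- orthogonal sets
    have h0 : ∀ j ∈ X.1, ∀ k ∈ Y.1, bgen M j * bgen M k = bgen M k * bgen M j := by
      intro j hj k hk
      have hjk := h1 j hj k hk
      have hne : j ≠ k := by
        rintro rfl
        rw [M.diagonal] at hjk
        omega
      have := artin_bgen (M := M) j k hne
      rw [hjk] at this
      simpa [pr, lt] using this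
    have h2 : ∀ j ∈ X.1, bgen M j * dlt M Y.1 = dlt M Y.1 * bgen M j := fun j hj =>
      lft_comm_of M (fun k hk => h0 j hj k hk) (lw_spec M Y.2.1).1
    have h3 : dlt M Y.1 * dlt M X.1 = dlt M X.1 * dlt M Y.1 :=
      lft_comm_of M (fun j hj => (h2 j hj).symm) (lw_spec M X.2.1).1
    have h4 : Commute (dlt M X.1) (dlt M Y.1) := h3.symm
    exact (h4.pow_left 2).pow_right 2

theorem dlt_order (M : CoxeterMatrix S) {T : Finset S} (hT : Sph M T) (hne : T.Nonempty) (n : ℕ)
    (hn : 0 < n) : dlt M T ^ n ≠ 1 := by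
  have hA : Artin M (fun _ : S => Multiplicative.ofAdd (1 : ℤ)) := by
    intro s s' _
    have : ∀ (a b : S) (k : ℕ), pr (fun _ : S => Multiplicative.ofAdd (1 : ℤ)) a b k =
        Multiplicative.ofAdd (1 : ℤ) ^ k := by
      intro a b k
      induction k with
      | zero => rfl
      | succ k ih =>
        show pr (fun _ : S => Multiplicative.ofAdd (1 : ℤ)) a b k * _ = _
        rw [ih, pow_succ]
    rw [this, this]
  obtain ⟨Φ, hΦ⟩ := bg_hom _ hA
  have hlen : Φ (dlt M T) =
      Multiplicative.ofAdd (1 : ℤ) ^ M.toCoxeterSystem.length (lw M T) := by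
    have hred := (M.toCoxeterSystem.exists_isReduced (lw M T)).choose_spec
    obtain ⟨ω, hω⟩ : ∃ ω, ω = (M.toCoxeterSystem.exists_isReduced (lw M T)).choose := ⟨_, rfl⟩
    rw [← hω] at hred
    have hlft : dlt M T = (ω.map (bgen M)).prod := by
      rw [hω]
      rfl
    have h1 : ∀ l : List S, Φ (l.map (bgen M)).prod = Multiplicative.ofAdd (1 : ℤ) ^ l.length := by
      intro l
      induction l with
      | nil => simp
      | cons i l ih => rw [List.map_cons, List.prod_cons, map_mul, hΦ, ih, List.length_cons, pow_succ']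
    rw [hlft, h1, hred.2]
    congr 1
    exact hred.1.eq.symm
  have hpos : 0 < M.toCoxeterSystem.length (lw M T) := by
    obtain ⟨s, hs⟩ := hne
    have h1 := (lw_spec M hT).2 _ (simple_mem_par M hs)
    rw [← M.toCoxeterSystem_simple, M.toCoxeterSystem.length_simple] at h1
    omega
  intro h
  have h2 := congrArg Φ h
  rw [map_pow, map_one, hlen, ← pow_mul, ← ofAdd_nsmul] at h2
  have h3 := congrArg Multiplicative.toAdd h2
  simp only [toAdd_ofAdd, toAdd_one, nsmul_eq_mul, mul_one] at h3
  have h4 : M.toCoxeterSystem.length (lw M T) * n = 0 := by exact_mod_cast h3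
  rcases Nat.mul_eq_zero.1 h4 with h5 | h5 <;> omega

end

end Pool.Agent.H93.AA
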