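import Pool.Agent.H93.AA.Fac
import Pool.Agent.H93.AA.Gar
import Pool.Agent.H78.RA.Gen
import Pool.Agent.H78.RA.Artin

/-!
# Project AA: the reduced `ℓ²`-homology of the Salvetti complex

The elements `β_{σ,∅}` map the Salvetti complex to the simplicial chain complex of the nerve with
coefficients in `ℓ²`; they act injectively since the alternating sum of the `β_{σ,J}` is `± Δ_σ`.
-/

set_option autoImplicit false
set_option linter.unusedSectionVars false

open Finset

namespace Pool.Agent.H93.AA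

open Pool.Agent.H4.FC Pool.Agent.H78.RC Pool.Agent.H78.RA Pool.Agent.H4.Atiyah H42.NU

section Lin

variable {Γ : Type} [Group Γ]

/-- the pairing with a function is additive -/
noncomputable def prg (φ : Γ → ℂ) : MonoidAlgebra ℂ Γ →+ ℂ where
  toFun a := a.coeff.sum fun t z => z * φ t
  map_zero' := by simp
  map_add' a b := by
    show (a + b).coeff.sum (fun t z => z * φ t) = _
    rw [MonoidAlgebra.coeff_add]
    exact Finsupp.sum_add_index' (fun t => zero_mul _) (fun t z w => add_mul _ _ _)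

theorem prg_of (φ : Γ → ℂ) (z : ℂ) (g : Γ) : prg φ (z • MonoidAlgebra.of ℂ Γ g) = z * φ g := by
  show (z • MonoidAlgebra.of ℂ Γ g).coeff.sum (fun t z => z * φ t) = _
  rw [MonoidAlgebra.of_apply, MonoidAlgebra.smul_single, smul_eq_mul, mul_one,
    MonoidAlgebra.coeff_single]
  exact Finsupp.sum_single_index (zero_mul _)

/-- an element of `ℓ²` whose absolute values are invariant under the translation by an element of
infinite order is zero -/
theorem zero_of_norm (t : Γ) (ht : ∀ n : ℕ, 0 < n → t ^ n ≠ 1) (x : Γ → ℂ)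
    (hs : Summable fun g => ‖x g‖ ^ 2) (h1 : ∀ g, ‖x (g * t⁻¹)‖ = ‖x g‖) : x = 0 := by
  have h2 : ∀ (n : ℕ) (g : Γ), ‖x (g * (t ^ n)⁻¹)‖ = ‖x g‖ := by
    intro n
    induction n with
    | zero => intro g; simp
    | succ n ih =>
      intro g
      rw [pow_succ, mul_inv_rev, ← mul_assoc, ih, h1]
  funext g
  show x g = 0
  by_contra hne
  have hinj : Function.Injective fun n : ℕ => g * (t ^ n)⁻¹ := by
    intro a b hab
    have h3 : g * (t ^ a)⁻¹ = g * (t ^ b)⁻¹ := hab
    have h4 : t ^ a = t ^ b := inv_injective (mul_left_cancel h3)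
    by_contra hc
    rcases lt_or_gt_of_ne hc with hl | hl
    · apply ht (b - a) (by omega)
      have h5 : t ^ a * t ^ (b - a) = t ^ a * 1 := by
        rw [← pow_add, Nat.add_sub_cancel' hl.le, mul_one, h4]
      exact mul_left_cancel h5
    · apply ht (a - b) (by omega)
      have h5 : t ^ b * t ^ (a - b) = t ^ b * 1 := by
        rw [← pow_add, Nat.add_sub_cancel' hl.le, mul_one, h4]
      exact mul_left_cancel h5
  have h6 := hs.comp_injective hinj
  have h7 : (fun g => ‖x g‖ ^ 2) ∘ (fun n : ℕ => g * (t ^ n)⁻¹) = fun _ => ‖x g‖ ^ 2 := by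
    funext n
    show ‖x (g * (t ^ n)⁻¹)‖ ^ 2 = _
    rw [h2]
  rw [h7] at h6
  have h8 := (summable_const_iff _).1 h6
  exact hne (norm_eq_zero.1 (pow_eq_zero_iff (two_ne_zero) |>.1 h8))

end Lin

section

variable {S : Type} [Fintype S] [dS : DecidableEq S]

/-- the elements `β_{T,J}` with complex coefficients -/
noncomputable def bC (M : CoxeterMatrix S) (T J : Finset S) : MonoidAlgebra ℂ (BG M) :=
  MonoidAlgebra.mapRingHom (BG M) (Int.castRingHom ℂ) (bt M T J)

theorem bC_eq (M : CoxeterMatrix S) (T J : Finset S) : bC M T J =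
    ∑ w ∈ mn M T J, (-1 : ℂ) ^ M.toCoxeterSystem.length w •
      MonoidAlgebra.of ℂ (BG M) (lft M w) := by
  unfold bC bt
  rw [map_sum]
  apply Finset.sum_congr rfl
  intro w _
  rw [MonoidAlgebra.of_apply, MonoidAlgebra.of_apply, MonoidAlgebra.smul_single,
    MonoidAlgebra.smul_single, MonoidAlgebra.mapRingHom_single]
  simp

theorem bC_self (M : CoxeterMatrix S) {T : Finset S} (hT : Sph M T) : bC M T T = 1 := by
  unfold bC
  rw [bt_self M hT, map_one]

theorem bC_mul (M : CoxeterMatrix S) {T J I : Finset S} (hT : Sph M T) (hJ : J ⊆ T) (hI : I ⊆ J) :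
    bC M T J * bC M J I = bC M T I := by
  unfold bC
  rw [← map_mul, bt_mul M hT hJ hI]

theorem bC_alt (M : CoxeterMatrix S) {T : Finset S} (hT : Sph M T) :
    ∑ J ∈ T.powerset, (-1 : ℤ) ^ J.card • bC M T J =
      (-1 : ℤ) ^ M.toCoxeterSystem.length (lw M T) • MonoidAlgebra.of ℂ (BG M) (dlt M T) := by
  have h := congrArg (MonoidAlgebra.mapRingHom (BG M) (Int.castRingHom ℂ)) (bt_alt M hT)
  rw [map_sum] at h
  simp only [map_zsmul] at h
  rw [MonoidAlgebra.of_apply, MonoidAlgebra.mapRingHom_single, map_one] at h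
  exact h

theorem Rop_zsmul {Γ : Type} [Group Γ] (c : ℤ) (a : MonoidAlgebra ℂ Γ) :
    Rop (c • a) = c • Rop a := by
  unfold Rop
  rw [map_zsmul]
  rfl

theorem Rop_sum {Γ ι : Type} [Group Γ] (s : Finset ι) (a : ι → MonoidAlgebra ℂ Γ) :
    Rop (∑ i ∈ s, a i) = ∑ i ∈ s, Rop (a i) := by
  unfold Rop
  rw [map_sum, Finset.unop_sum]

/-- the elements `β_{σ,∅}` act injectively -/
theorem bC_inj (M : CoxeterMatrix S) (σ : Finset S) (hσ : Sph M σ) (x : LL Unit (BG M))
    (hx : Rop (bC M σ ∅) x = 0) : x = 0 := by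
  classical
  induction σ using Finset.strongInduction generalizing x with
  | H σ ih =>
    have h1 : ∀ J ∈ σ.powerset, J ≠ σ → Rop (bC M σ J) x = 0 := by
      intro J hJ hne
      have hJ' : J ⊆ σ := Finset.mem_powerset.1 hJ
      apply ih J (lt_of_le_of_ne hJ' hne) (hσ.mono hJ')
      rw [← bC_mul M hσ hJ' (Finset.empty_subset J), Rop_mul] at hx
      exact hx
    have h2 : Rop (∑ J ∈ σ.powerset, (-1 : ℤ) ^ J.card • bC M σ J) x =
        Rop ((-1 : ℤ) ^ M.toCoxeterSystem.length (lw M σ) •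
          MonoidAlgebra.of ℂ (BG M) (dlt M σ)) x := by
      rw [bC_alt M hσ]
    rw [Rop_sum, _root_.sum_apply, Finset.sum_eq_single σ] at h2
    · rw [bC_self M hσ, Rop_zsmul, Rop_zsmul] at h2
      have h3 : Rop (1 : MonoidAlgebra ℂ (BG M)) = 1 := by
        unfold Rop
        rw [map_one]
        rfl
      rw [h3] at h2
      have h4 : ∀ g, ‖x ((), g * (dlt M σ)⁻¹)‖ = ‖x ((), g)‖ := by
        intro g
        have h5 : ‖ev g (((-1 : ℤ) ^ σ.card • (1 : BB (BG M))) x)‖
            = ‖ev g (((-1 : ℤ) ^ M.toCoxeterSystem.length (lw M σ) •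
            Rop (MonoidAlgebra.of ℂ (BG M) (dlt M σ))) x)‖ := by rw [h2]
        have h6 : ev g (((-1 : ℤ) ^ σ.card • (1 : BB (BG M))) x)
            = (((-1 : ℤ) ^ σ.card : ℤ) : ℂ) * x ((), g) := by
          show ev g ((-1 : ℤ) ^ σ.card • x) = _
          rw [ev_smul]
          rfl
        have h7 : ev g (((-1 : ℤ) ^ M.toCoxeterSystem.length (lw M σ) •
            Rop (MonoidAlgebra.of ℂ (BG M) (dlt M σ))) x)
            = (((-1 : ℤ) ^ M.toCoxeterSystem.length (lw M σ) : ℤ) : ℂ)
              * x ((), g * (dlt M σ)⁻¹) := by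
          show ev g ((-1 : ℤ) ^ M.toCoxeterSystem.length (lw M σ) •
            Rop (MonoidAlgebra.of ℂ (BG M) (dlt M σ)) x) = _
          rw [ev_smul]
          congr 1
          show Rop (MonoidAlgebra.of ℂ (BG M) (dlt M σ)) x ((), g) = _
          rw [Rop_apply, MonoidAlgebra.of_apply, MonoidAlgebra.coeff_single,
            Finsupp.sum_single_index (zero_mul _), one_mul]
        rw [h6, h7, norm_mul, norm_mul] at h5
        simpa using h5.symm
      rcases σ.eq_empty_or_nonempty with he | hne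
      · subst he
        rw [bC_self M hσ, h3] at hx
        exact hx
      · have h8 := zero_of_norm (dlt M σ) (dlt_order M hσ hne) (fun g => x ((), g)) (by
          have h9 : Summable fun p : Unit × BG M => ‖x p‖ ^ 2 := (memlp_iff _).1 (lp.memℓp _)
          exact h9.comp_injective (i := fun g : BG M => ((), g))
            (fun a b h => (Prod.ext_iff.1 h).2)) h4
        apply ev_ext
        intro g
        exact congrFun h8 g
    · intro J hJ hne
      rw [Rop_zsmul]
      show (-1 : ℤ) ^ J.card • Rop (bC M σ J) x = 0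
      rw [h1 J hJ hne, smul_zero]
    · intro h
      exact absurd (Finset.mem_powerset_self σ) h

theorem bC_inj' (M : CoxeterMatrix S) (σ : Finset S) (hσ : Sph M σ) (x : BG M → ℂ)
    (hs : Summable fun g => ‖x g‖ ^ 2)
    (hx : ∀ g, ((bC M σ ∅).coeff.sum fun s a => a * x (g * s⁻¹)) = 0) : x = 0 := by
  have h0 : Summable fun p : Unit × BG M => ‖x p.2‖ ^ 2 := by
    have h1 := (Equiv.punitProd (BG M)).summable_iff (f := fun g => ‖x g‖ ^ 2)
    exact h1.2 hs
  set X : LL Unit (BG M) := ⟨fun p => x p.2, (memlp_iff _).2 h0⟩ with hX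
  have h2 : X = 0 := by
    apply bC_inj M σ hσ
    apply ev_ext
    intro g
    show Rop (bC M σ ∅) X ((), g) = 0
    rw [Rop_apply]
    exact hx g
  funext g
  have h3 : X ((), g) = 0 := by
    rw [h2]
    rfl
  exact h3

theorem faces_sph (M : CoxeterMatrix S) (i : ℕ) :
    Faces (fun σ : Finset S => Sph M σ ∧ σ.card = i) fun σ => Sph M σ ∧ σ.card + 1 = i := by
  rintro τ v hv ⟨h1, h2⟩
  refine ⟨h1.mono (Finset.subset_insert _ _), ?_⟩
  rw [← h2, Finset.card_insert_of_notMem hv]

theorem faces_sph' (M : CoxeterMatrix S) (i : ℕ) :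
    Faces (fun σ : Finset S => Sph M σ ∧ σ.card = i + 1) fun σ => Sph M σ ∧ σ.card = i := by
  rintro τ v hv ⟨h1, h2⟩
  refine ⟨h1.mono (Finset.subset_insert _ _), ?_⟩
  rw [Finset.card_insert_of_notMem hv] at h2
  omega

theorem ex_of_hl {M : CoxeterMatrix S} {i : ℕ} (h : HL M i) (ν : S → ℕ) :
    Ex (ZMod 2) ν (fun σ : Finset S => Sph M σ ∧ σ.card = i)
      fun σ => Sph M σ ∧ σ.card = i + 1 := by
  intro z hz1 hz2
  obtain ⟨y, hy1, hy2⟩ := h z hz1 (fun s => by rw [← bd_two ν, hz2]; rfl)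
  refine ⟨y, hy1, ?_⟩
  funext s
  rw [bd_two, hy2]

theorem bdG_eq (M : CoxeterMatrix S) (ν : S → ℕ) (f : Finset S → BG M → ℂ) :
    bdG (fun τ v => bC M (insert v τ) τ) ν f = bdM M ν f := by
  funext τ g
  unfold bdG bdM
  have hd : dS = fun a b => Classical.propDecidable (a = b) := Subsingleton.elim _ _
  subst hd
  classical
  apply Finset.sum_congr rfl
  intro v _
  congr 1
  show prg (fun s => f (insert v τ) (g * s⁻¹)) (bC M (insert v τ) τ) = _
  rw [bC_eq, map_sum]
  apply Finset.sum_congr rfl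
  intro w _
  rw [prg_of]

/-- If the reduced mod 2 homology of the nerve vanishes in degree `i - 1`, then the reduced
`ℓ²`-homology of the Salvetti complex vanishes in degree `i`. -/
theorem l2zero_of_hl (M : CoxeterMatrix S) {i : ℕ} (h : HL M i) : L2ZeroM M i := by
  have hd : dS = fun a b => Classical.propDecidable (a = b) := Subsingleton.elim _ _
  subst hd
  classical
  intro ν hν z hz hb ε hε
  obtain ⟨y, hy1, hy2⟩ := l2_approxG ν hν (faces_sph M i) (faces_sph' M i)
    (fun τ v => bC M (insert v τ) τ) (fun σ => bC M σ ∅)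
    (fun τ v hv hP => bC_mul M (hP.elim (fun h => h.1) fun h => h.1)
      (Finset.subset_insert _ _) (Finset.empty_subset _))
    (fun σ hσ x hs hx => bC_inj' M σ (hσ.elim (fun h => h.1) fun h => h.elim (fun h => h.1)
      fun h => h.1) x hs hx)
    (ex_two ν hν (faces_sph' M i) (ex_of_hl h ν)) z ⟨hz.supp, hz.l2⟩ (by rw [bdG_eq]; exact hb) ε hε
  refine ⟨y, ⟨hy1.supp, hy1.l2⟩, ?_⟩
  rw [bdG_eq] at hy2
  exact hy2

end

end Pool.Agent.H93.AA
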