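import Pool.Agent.H78.RC.Defs
import Pool.Agent.H42.NU.Defs
import Pool.Agent.H65.RA.Defs

/-!
# Project AA (Artin groups): definitions

`BG M` is the Artin group of the Coxeter matrix `M`, `bgen M s` are its generators; `Sph M T`: the parabolic
subgroup `W_T = par M T` is finite; `lw M T` is its longest element.
-/

set_option autoImplicit false

open Finset

namespace Pool.Agent.H93.AA

open Pool.Agent.H4.FC Pool.Agent.H78.RC H42.NU

variable {S : Type}

/-- the positive lift of `w`: the product of the generators along a reduced word of `w` -/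
noncomputable def lft (M : CoxeterMatrix S) (w : M.Group) : BG M :=
  ((M.toCoxeterSystem.exists_isReduced w).choose.map (bgen M)).prod

/-- the element `Δ_T` of the Artin group: the positive lift of the longest element of `W_T` -/
noncomputable def dlt (M : CoxeterMatrix S) (T : Finset S) : BG M := lft M (lw M T)

open Classical in
/-- the elements of `W_T` which are the shortest elements of their cosets `w W_J` -/
noncomputable def mn (M : CoxeterMatrix S) (T J : Finset S) : Finset M.Group :=
  (parF M T).filter fun w => ∀ t ∈ J, ¬ M.toCoxeterSystem.IsRightDescent w t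

/-- the elements `β_{T,J}` of the group ring of the Artin group -/
noncomputable def bt (M : CoxeterMatrix S) (T J : Finset S) : MonoidAlgebra ℤ (BG M) :=
  ∑ w ∈ mn M T J, (-1 : ℤ) ^ M.toCoxeterSystem.length w • MonoidAlgebra.of ℤ (BG M) (lft M w)

section

variable [DecidableEq S]

/-- the irreducible spherical sets of generators -/
abbrev Irr (M : CoxeterMatrix S) : Type := {T : Finset S // Sph M T ∧ Con (diag M) T}

/-- irreducible spherical sets are adjacent if one contains the other or if they are orthogonal -/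
def nG (M : CoxeterMatrix S) : SimpleGraph (Irr M) where
  Adj X Y := X ≠ Y ∧ (X.1 ⊆ Y.1 ∨ Y.1 ⊆ X.1 ∨ Sep M X.1 Y.1)
  symm := ⟨fun X Y h => ⟨h.1.symm, by
    rcases h.2 with h1 | h1 | h1
    · exact Or.inr (Or.inl h1)
    · exact Or.inl h1
    · exact Or.inr (Or.inr fun j hj k hk => by rw [M.symmetric]; exact h1 k hk j hj)⟩⟩
  loopless := ⟨fun _ h => h.1 rfl⟩

/-- the squares `Δ_T ^ 2` -/
noncomputable def xg (M : CoxeterMatrix S) (X : Irr M) : BG M := dlt M X.1 ^ 2

variable [Fintype S]

/-- The reduced homology modulo two of the nerve of the Coxeter group vanishes on the simplices with `j`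
vertices (in degree `j - 1`): every cycle is a boundary. -/
def HL (M : CoxeterMatrix S) (j : ℕ) : Prop :=
  ∀ z : Finset S → ZMod 2, (∀ T, z T ≠ 0 → Sph M T ∧ T.card = j) →
    (∀ T, ∑ v ∈ Tᶜ, z (insert v T) = 0) →
    ∃ y : Finset S → ZMod 2, (∀ T, y T ≠ 0 → Sph M T ∧ T.card = j + 1) ∧
      ∀ T, ∑ v ∈ Tᶜ, y (insert v T) = z T

/-- Cellular `ℓ²`-chains of degree `i` of the universal cover of the Salvetti complex of the Artin group of `M`.
The cells of dimension `i` are the pairs `(σ, g)` of a spherical set `σ` with `i` elements and an element `g` of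
the Artin group; `f σ g` is the coefficient of this cell. -/
structure IsL2ChainM (M : CoxeterMatrix S) (i : ℕ) (f : Finset S → BG M → ℂ) : Prop where
  supp : ∀ σ g, f σ g ≠ 0 → Sph M σ ∧ σ.card = i
  l2 : ∀ σ, Summable fun g => ‖f σ g‖ ^ 2

/-- The cellular boundary of the Salvetti complex: the boundary of the cell `(σ, g)` is the sum of the cells
`(σ \ {v}, g * w~)` with the sign `(-1) ^ ℓ(w)` times the sign of `v` in `σ`, where `w` runs over the shortest
elements of the cosets `w W_(σ \ {v})` in `W_σ` and `w~` is the positive lift of `w`. -/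
noncomputable def bdM (M : CoxeterMatrix S) (ν : S → ℕ) (f : Finset S → BG M → ℂ) :
    Finset S → BG M → ℂ :=
  fun τ g => ∑ v ∈ τᶜ, (-1) ^ (τ.filter fun u => ν u < ν v).card *
    ∑ w ∈ mn M (insert v τ) τ, (-1) ^ M.toCoxeterSystem.length w *
      f (insert v τ) (g * (lft M w)⁻¹)

/-- The reduced `ℓ²`-homology of the Artin group of `M` (of the universal cover of its Salvetti complex) vanishes
in degree `i`: every `ℓ²`-cycle is an `ℓ²`-limit of boundaries of `ℓ²`-chains. -/
def L2ZeroM (M : CoxeterMatrix S) (i : ℕ) : Prop :=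
  ∀ ν : S → ℕ, Function.Injective ν → ∀ z : Finset S → BG M → ℂ, IsL2ChainM M i z →
    bdM M ν z = 0 → ∀ ε : ℝ, 0 < ε → ∃ y : Finset S → BG M → ℂ, IsL2ChainM M (i + 1) y ∧
      ∑ σ, ∑' g, ‖z σ g - bdM M ν y σ g‖ ^ 2 < ε

end

end Pool.Agent.H93.AA
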