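import Mathlib

/-!
# Project AA: chains modulo two: cones, simplicial maps
-/

set_option autoImplicit false

open Finset

namespace Pool.Agent.H93.AA

section Gen

variable {V U : Type} [Fintype V] [DecidableEq V] [Fintype U] [DecidableEq U]

/-- the boundary -/
def bd2 (f : Finset V → ZMod 2) (s : Finset V) : ZMod 2 := ∑ v ∈ sᶜ, f (insert v s)

omit [Fintype V] in
/-- the coboundary -/
def cob2 (x : Finset V → ZMod 2) (s : Finset V) : ZMod 2 := ∑ v ∈ s, x (s.erase v)

omit [Fintype V] in
/-- the cone with apex `a` -/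
def cone2 (a : V) (f : Finset V → ZMod 2) (s : Finset V) : ZMod 2 :=
  if a ∈ s then f (s.erase a) else 0

open Classical in
/-- pull-back of cochains -/
noncomputable def pb2 (p : V → U) (x : Finset U → ZMod 2) (s : Finset V) : ZMod 2 :=
  if Set.InjOn p (s : Set V) then x (s.image p) else 0

/-- push-forward of chains -/
noncomputable def pf2 (p : V → U) (f : Finset V → ZMod 2) (t : Finset U) : ZMod 2 :=
  ∑ s, pb2 p (Pi.single t 1) s * f s

theorem bd_cone (a : V) (f : Finset V → ZMod 2) (s : Finset V) :
    bd2 (cone2 a f) s + cone2 a (bd2 f) s = f s := by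
  unfold bd2 cone2
  by_cases ha : a ∈ s
  · rw [if_pos ha]
    beta_reduce
    have h1 : (s.erase a)ᶜ = insert a sᶜ := by
      ext x
      simp only [mem_compl, mem_erase, mem_insert, not_and_or, not_not]
    rw [h1, sum_insert (by simpa using ha), insert_erase ha]
    have h2 : ∀ v ∈ sᶜ, (if a ∈ insert v s then f ((insert v s).erase a) else 0)
        = f (insert v (s.erase a)) := by
      intro v hv
      have hva : v ≠ a := by
        rintro rfl
        exact (mem_compl.1 hv) ha
      rw [if_pos (mem_insert_of_mem ha), erase_insert_of_ne hva]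
    rw [sum_congr rfl h2, add_comm (f s), ← add_assoc, CharTwo.add_self_eq_zero, zero_add]
  · rw [if_neg ha, add_zero, sum_eq_single a]
    · rw [if_pos (mem_insert_self a s), erase_insert ha]
    · intro v _ hva
      rw [if_neg]
      intro h
      rcases mem_insert.1 h with h | h
      · exact hva h.symm
      · exact ha h
    · intro h
      exact absurd (mem_compl.2 ha) h

theorem bd_add2 (f g : Finset V → ZMod 2) : bd2 (f + g) = bd2 f + bd2 g := by
  funext s
  simp [bd2, sum_add_distrib]

theorem bd_sum2 {ι : Type} (A : Finset ι) (f : ι → Finset V → ZMod 2) :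
    bd2 (∑ i ∈ A, f i) = ∑ i ∈ A, bd2 (f i) := by
  classical
  funext s
  simp only [bd2, Finset.sum_apply]
  rw [sum_comm]

theorem bd_smul2 (c : ZMod 2) (f : Finset V → ZMod 2) : bd2 (c • f) = c • bd2 f := by
  funext s
  simp [bd2, mul_sum]

theorem bd_zero2 : bd2 (0 : Finset V → ZMod 2) = 0 := by
  funext s
  simp [bd2]

theorem cone_zero2 (a : V) : cone2 a (0 : Finset V → ZMod 2) = 0 := by
  funext s
  simp [cone2]

theorem pair_bd2 (x f : Finset V → ZMod 2) : ∑ s, x s * bd2 f s = ∑ s, cob2 x s * f s := by
  have h1 : ∀ s : Finset V, x s * bd2 f s = ∑ v, if v ∉ s then x s * f (insert v s) else 0 := by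
    intro s
    unfold bd2
    rw [mul_sum, ← sum_filter]
    refine sum_congr ?_ fun _ _ => rfl
    ext v
    simp
  have h2 : ∀ s : Finset V, cob2 x s * f s = ∑ v, if v ∈ s then x (s.erase v) * f s else 0 := by
    intro s
    unfold cob2
    rw [sum_mul, ← sum_filter]
    refine sum_congr ?_ fun _ _ => rfl
    ext v
    simp
  simp_rw [h1, h2]
  rw [sum_comm, sum_comm (s := (univ : Finset (Finset V))) (t := (univ : Finset V))]
  refine sum_congr rfl fun v _ => ?_
  rw [← sum_filter, ← sum_filter]
  refine sum_bij' (fun s _ => insert v s) (fun s _ => s.erase v) ?_ ?_ ?_ ?_ ?_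
  · intro s _
    simp
  · intro s _
    simp
  · intro s hs
    exact erase_insert (mem_filter.1 hs).2
  · intro s hs
    exact insert_erase (mem_filter.1 hs).2
  · intro s hs
    rw [erase_insert (mem_filter.1 hs).2]

theorem cob_pb2 (p : V → U) (x : Finset U → ZMod 2) : cob2 (pb2 p x) = pb2 p (cob2 x) := by
  classical
  funext s
  unfold cob2 pb2
  by_cases hs : Set.InjOn p (s : Set V)
  · rw [if_pos hs]
    beta_reduce
    rw [sum_image fun a ha b hb h => hs ha hb h]
    refine sum_congr rfl fun v hv => ?_
    rw [if_pos (hs.mono (by simp))]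
    congr 1
    ext u
    simp only [mem_image, mem_erase]
    constructor
    · rintro ⟨a, ⟨h1, h2⟩, rfl⟩
      exact ⟨fun h => h1 (hs h2 hv h), a, h2, rfl⟩
    · rintro ⟨h1, a, h2, rfl⟩
      exact ⟨a, ⟨fun h => h1 (by rw [h]), h2⟩, rfl⟩
  · rw [if_neg hs]
    obtain ⟨a, ha, b, hb, hab, hne⟩ : ∃ a ∈ s, ∃ b ∈ s, p a = p b ∧ a ≠ b := by
      by_contra hc
      push Not at hc
      exact hs fun a ha b hb h => hc a ha b hb h
    have h1 : ∀ v ∈ s, v ≠ a → v ≠ b →
        (if Set.InjOn p ((s.erase v : Finset V) : Set V) then x ((s.erase v).image p) else 0)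
          = 0 := by
      intro v _ hva hvb
      rw [if_neg]
      intro h
      exact hne (h (by simp [ha, hva.symm]) (by simp [hb, hvb.symm]) hab)
    have himg : ∀ c d : V, c ∈ s → d ∈ s → p c = p d → c ≠ d → (s.erase c).image p = s.image p := by
      intro c d hc hd hcd hcne
      apply Subset.antisymm (image_subset_image (erase_subset _ _))
      intro u hu
      obtain ⟨e, he, rfl⟩ := mem_image.1 hu
      by_cases hec : e = c
      · subst hec
        exact mem_image.2 ⟨d, mem_erase.2 ⟨hcne.symm, hd⟩, hcd.symm⟩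
      · exact mem_image.2 ⟨e, mem_erase.2 ⟨hec, he⟩, rfl⟩
    have hinj : ∀ c d : V, c ∈ s → d ∈ s → p c = p d → c ≠ d →
        Set.InjOn p ((s.erase c : Finset V) : Set V) →
          Set.InjOn p ((s.erase d : Finset V) : Set V) := by
      intro c d hc hd hcd hcne h
      have key : ∀ u ∈ s, u ≠ d → ∀ v ∈ s, v ≠ d → p u = p v → u = v := by
        intro u hu hud v hv hvd huv
        by_cases huc : u = c
        · by_cases hvc : v = c
          · rw [huc, hvc]
          · exfalso
            apply hvd
            exact h (by simp [hvc, hv]) (by simp [hcne.symm, hd]) (by rw [← huv, huc, hcd])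
        · by_cases hvc : v = c
          · exfalso
            apply hud
            exact h (by simp [huc, hu]) (by simp [hcne.symm, hd]) (by rw [huv, hvc, hcd])
          · exact h (by simp [huc, hu]) (by simp [hvc, hv]) huv
      intro u hu v hv huv
      have hu' := mem_erase.1 (mem_coe.1 hu)
      have hv' := mem_erase.1 (mem_coe.1 hv)
      exact key u hu'.2 hu'.1 v hv'.2 hv'.1 huv
    rw [← sum_subset (show ({a, b} : Finset V) ⊆ s by
      intro c hc
      rcases mem_insert.1 hc with rfl | hc
      · exact ha
      · rw [mem_singleton.1 hc]; exact hb)]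
    · rw [sum_pair hne, himg a b ha hb hab hne, himg b a hb ha hab.symm hne.symm]
      by_cases h : Set.InjOn p ((s.erase a : Finset V) : Set V)
      · rw [if_pos h, if_pos (hinj a b ha hb hab hne h), CharTwo.add_self_eq_zero]
      · rw [if_neg h, if_neg fun h' => h (hinj b a hb ha hab.symm hne.symm h'), add_zero]
    · intro v hv hv'
      rw [mem_insert, mem_singleton, not_or] at hv'
      exact h1 v hv hv'.1 hv'.2

theorem pair_pf2 (p : V → U) (x : Finset U → ZMod 2) (f : Finset V → ZMod 2) :
    ∑ t, x t * pf2 p f t = ∑ s, pb2 p x s * f s := by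
  classical
  unfold pf2
  simp_rw [mul_sum]
  rw [sum_comm]
  refine sum_congr rfl fun s _ => ?_
  unfold pb2
  by_cases h : Set.InjOn p (s : Set V)
  · simp_rw [if_pos h]
    rw [sum_eq_single (s.image p)]
    · rw [Pi.single_eq_same, one_mul]
    · intro t _ ht
      rw [Pi.single_eq_of_ne (Ne.symm ht), zero_mul, mul_zero]
    · intro h'
      exact absurd (mem_univ _) h'
  · simp_rw [if_neg h]
    simp

theorem ext_pair2 {f g : Finset U → ZMod 2} (h : ∀ x : Finset U → ZMod 2,
    ∑ t, x t * f t = ∑ t, x t * g t) : f = g := by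
  funext t
  have h1 := h (Pi.single t 1)
  have h2 : ∀ k : Finset U → ZMod 2, ∑ u, (Pi.single t 1 : Finset U → ZMod 2) u * k u = k t := by
    intro k
    rw [sum_eq_single t]
    · rw [Pi.single_eq_same, one_mul]
    · intro u _ hu
      rw [Pi.single_eq_of_ne hu, zero_mul]
    · intro h'
      exact absurd (mem_univ _) h'
  rw [h2, h2] at h1
  exact h1

theorem pf_bd2 (p : V → U) (f : Finset V → ZMod 2) : pf2 p (bd2 f) = bd2 (pf2 p f) := by
  apply ext_pair2
  intro x
  rw [pair_pf2, pair_bd2, cob_pb2, pair_bd2, pair_pf2]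

theorem pf_sum2 {ι : Type} (p : V → U) (A : Finset ι) (f : ι → Finset V → ZMod 2) :
    pf2 p (∑ i ∈ A, f i) = ∑ i ∈ A, pf2 p (f i) := by
  classical
  funext t
  simp only [pf2, Finset.sum_apply, mul_sum]
  rw [sum_comm]

theorem pf_smul2 (p : V → U) (c : ZMod 2) (f : Finset V → ZMod 2) :
    pf2 p (c • f) = c • pf2 p f := by
  funext t
  simp only [pf2, Pi.smul_apply, smul_eq_mul, mul_sum]
  exact sum_congr rfl fun s _ => by ring

/-- a simplicial map and cones -/
theorem pair_cone2 (p : V → U) (c : V) (x : Finset U → ZMod 2) (f : Finset V → ZMod 2) :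
    ∑ s, pb2 p x s * cone2 c f s =
      ∑ s, pb2 p (fun t => if p c ∈ t then 0 else x (insert (p c) t)) s * f s := by
  classical
  have h1 : ∀ s : Finset V, pb2 p x s * cone2 c f s
      = if c ∈ s then pb2 p x s * f (s.erase c) else 0 := by
    intro s
    unfold cone2
    split_ifs <;> simp
  have h2 : ∀ s : Finset V, pb2 p (fun t => if p c ∈ t then 0 else x (insert (p c) t)) s * f s
      = if c ∉ s then pb2 p x (insert c s) * f s else 0 := by
    intro s
    unfold pb2
    by_cases hc : c ∈ s
    · rw [if_neg (not_not.2 hc)]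
      by_cases h : Set.InjOn p (s : Set V)
      · rw [if_pos h]
        beta_reduce
        rw [if_pos (mem_image_of_mem p hc), zero_mul]
      · rw [if_neg h, zero_mul]
    · rw [if_pos hc]
      congr 1
      by_cases h : Set.InjOn p (s : Set V)
      · rw [if_pos h]
        beta_reduce
        by_cases hp : p c ∈ s.image p
        · rw [if_pos hp, if_neg]
          intro h'
          obtain ⟨a, ha, hpa⟩ := mem_image.1 hp
          have := h' (by simpa using Or.inr ha) (by simp) hpa
          exact hc (this ▸ ha)
        · rw [if_neg hp, if_pos, image_insert]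
          rw [coe_insert, Set.injOn_insert (by simpa using hc)]
          exact ⟨h, by simpa using hp⟩
      · rw [if_neg h, if_neg]
        intro h'
        exact h (h'.mono (by simp))
  simp_rw [h1, h2]
  rw [← sum_filter, ← sum_filter]
  refine sum_bij' (fun s _ => s.erase c) (fun s _ => insert c s) ?_ ?_ ?_ ?_ ?_
  · intro s _
    simp
  · intro s _
    simp
  · intro s hs
    exact insert_erase (mem_filter.1 hs).2
  · intro s hs
    exact erase_insert (mem_filter.1 hs).2
  · intro s hs
    rw [insert_erase (mem_filter.1 hs).2]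

end Gen

end Pool.Agent.H93.AA
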