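import Pool.Agent.H93.AA.Defs
import Pool.Agent.H93.AA.Ch2
import Pool.Agent.H78.RC.Long
import Pool.Agent.H78.RC.Nest

/-!
# Project AA: from the complex of the irreducible spherical sets to the nerve

(C) of note 3967: `sdF T` is the cone over the sum of the `sdF (T \ s)` with apex the irreducible component of `T`
which contains the largest element of `T`; the largest element of `X` is a simplicial map; the composition is
the identity.
-/

set_option autoImplicit false
set_option linter.unusedSectionVars false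

open Finset

namespace Pool.Agent.H93.AA

open Pool.Agent.H4.FC Pool.Agent.H78.RC H42.NU Pool.Agent.H65.RA

variable {S : Type} [Fintype S] [DecidableEq S]

/-! ### Spherical sets -/

theorem sph_empty (M : CoxeterMatrix S) : Sph M ∅ := by
  have h : par M ∅ = ⊥ := by
    unfold par
    rw [Subgroup.closure_eq_bot_iff]
    rintro w ⟨v, hv, _⟩
    simp at hv
  show Finite (par M ∅)
  rw [h]
  infer_instance

theorem sph_union (M : CoxeterMatrix S) {X Y : Finset S} (hX : Sph M X) (hY : Sph M Y)
    (h : Sep M X Y) : Sph M (X ∪ Y) := by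
  have h1 : Finite (par M X) := hX
  have h2 : Finite (par M Y) := hY
  have key : ∀ w ∈ par M (X ∪ Y), ∃ a ∈ par M X, ∃ b ∈ par M Y, w = a * b := by
    apply par_induction
    · exact ⟨1, one_mem _, 1, one_mem _, by simp⟩
    · rintro v hv w ⟨a, ha, b, hb, rfl⟩
      rcases mem_union.1 hv with hv | hv
      · exact ⟨M.simple v * a, mul_mem (simple_mem_par M hv) ha, b, hb, by rw [mul_assoc]⟩
      · refine ⟨a, ha, M.simple v * b, mul_mem (simple_mem_par M hv) hb, ?_⟩
        rw [← mul_assoc, ← mul_assoc, sep_comm M h ha (simple_mem_par M hv)]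
  have h3 : (par M (X ∪ Y) : Set M.Group) ⊆
      (fun p : M.Group × M.Group => p.1 * p.2) '' ((par M X : Set M.Group) ×ˢ (par M Y : Set M.Group)) := by
    intro w hw
    obtain ⟨a, ha, b, hb, rfl⟩ := key w hw
    exact ⟨(a, b), ⟨ha, hb⟩, rfl⟩
  exact Set.Finite.subset (((Set.toFinite _).prod (Set.toFinite _)).image _) h3

theorem sph_clique (M : CoxeterMatrix S) (α : Finset (Irr M)) (h : (nG M).IsClique (α : Set (Irr M))) :
    Sph M (α.biUnion Subtype.val) := by
  induction hn : α.card using Nat.strong_induction_on generalizing α with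
  | _ n ih =>
    rcases α.eq_empty_or_nonempty with rfl | hne
    · rw [biUnion_empty]
      exact sph_empty M
    · obtain ⟨X, hX, hmax⟩ := α.exists_max_image (fun X => X.1.card) hne
      classical
      set β : Finset (Irr M) := α.filter fun Y => Sep M X.1 Y.1 with hβ
      have hXβ : X ∉ β := by
        intro h'
        have h1 := (mem_filter.1 h').2
        obtain ⟨a, ha⟩ := X.2.2.1
        have h2 := h1 a ha a ha
        rw [M.diagonal a] at h2
        omega
      have hlt : β.card < α.card :=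
        card_lt_card (Finset.ssubset_iff_subset_ne.2 ⟨filter_subset _ _, fun h' => hXβ (h'.symm ▸ hX)⟩)
      have h1 := ih β.card (hn ▸ hlt) β (h.subset (coe_subset.2 (filter_subset _ _))) rfl
      have hsep : Sep M X.1 (β.biUnion Subtype.val) := by
        intro j hj k hk
        obtain ⟨Y, hY, hk⟩ := mem_biUnion.1 hk
        exact (mem_filter.1 hY).2 j hj k hk
      refine (sph_union M X.2.1 h1 hsep).mono ?_
      intro s hs
      obtain ⟨Y, hY, hs⟩ := mem_biUnion.1 hs
      by_cases hXY : X = Y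
      · exact mem_union_left _ (hXY ▸ hs)
      · rcases (h hX hY hXY).2 with h2 | h2 | h2
        · exfalso
          exact hXY (Subtype.ext (eq_of_subset_of_card_le h2 (hmax Y hY)))
        · exact mem_union_left _ (h2 hs)
        · exact mem_union_right _ (mem_biUnion.2 ⟨Y, mem_filter.2 ⟨hY, h2⟩, hs⟩)

/-! ### Components and maxima -/

/-- the component of `m` in `T` -/
theorem exists_comp (D : SimpleGraph S) (T : Finset S) {m : S} (hm : m ∈ T) :
    ∃ C ⊆ T, m ∈ C ∧ Con D C ∧ ∀ a ∈ C, ∀ b ∈ T \ C, ¬ D.Adj a b := by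
  classical
  have hne : (T.powerset.filter fun C => m ∈ C ∧ ∀ a ∈ C, ∀ b ∈ T \ C, ¬ D.Adj a b).Nonempty :=
    ⟨T, by
      rw [mem_filter, mem_powerset]
      exact ⟨Subset.refl T, hm, fun a _ b hb => absurd (mem_sdiff.1 hb).1 (mem_sdiff.1 hb).2⟩⟩
  obtain ⟨C, hC, hmin⟩ := exists_min_image _ (fun C : Finset S => C.card) hne
  rw [mem_filter, mem_powerset] at hC
  refine ⟨C, hC.1, hC.2.1, ⟨⟨m, hC.2.1⟩, fun A hA hAne hcl => ?_⟩, hC.2.2⟩
  by_cases hmA : m ∈ A
  · apply eq_of_subset_of_card_le hA
    apply hmin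
    rw [mem_filter, mem_powerset]
    refine ⟨hA.trans hC.1, hmA, fun a ha b hb => ?_⟩
    by_cases hbC : b ∈ C
    · exact hcl a ha b (mem_sdiff.2 ⟨hbC, (mem_sdiff.1 hb).2⟩)
    · exact hC.2.2 a (hA ha) b (mem_sdiff.2 ⟨(mem_sdiff.1 hb).1, hbC⟩)
  · exfalso
    have h1 : C.card ≤ (C \ A).card := by
      apply hmin
      rw [mem_filter, mem_powerset]
      refine ⟨sdiff_subset.trans hC.1, mem_sdiff.2 ⟨hC.2.1, hmA⟩, fun a ha b hb hab => ?_⟩
      have ha' := mem_sdiff.1 ha
      by_cases hbA : b ∈ A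
      · exact hcl b hbA a ha hab.symm
      · exact hC.2.2 a ha'.1 b (mem_sdiff.2 ⟨(mem_sdiff.1 hb).1,
          fun hbC => (mem_sdiff.1 hb).2 (mem_sdiff.2 ⟨hbC, hbA⟩)⟩) hab
    have h2 : (C \ A).card < C.card := card_lt_card (sdiff_ssubset hA hAne)
    omega

section

variable (M : CoxeterMatrix S) (ν : S → ℕ)

theorem exists_mx (X : Irr M) : ∃ m ∈ X.1, ∀ y ∈ X.1, ν y ≤ ν m :=
  X.1.exists_max_image ν X.2.2.1

/-- the largest element -/
noncomputable def mx (X : Irr M) : S := (exists_mx M ν X).choose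

theorem mx_mem (X : Irr M) : mx M ν X ∈ X.1 := (exists_mx M ν X).choose_spec.1

theorem le_mx (X : Irr M) {y : S} (hy : y ∈ X.1) : ν y ≤ ν (mx M ν X) :=
  (exists_mx M ν X).choose_spec.2 y hy

theorem exists_cc {T : Finset S} (hT : Sph M T) (hne : T.Nonempty) :
    ∃ c : Irr M, c.1 ⊆ T ∧ (∀ a ∈ c.1, ∀ b ∈ T \ c.1, ¬ (diag M).Adj a b) ∧
      ∀ y ∈ T, ν y ≤ ν (mx M ν c) := by
  obtain ⟨m, hm, hmax⟩ := T.exists_max_image ν hne
  obtain ⟨C, h1, h2, h3, h4⟩ := exists_comp (diag M) T hm
  refine ⟨⟨C, hT.mono h1, h3⟩, h1, h4, fun y hy => ?_⟩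
  exact (hmax y hy).trans (le_mx M ν ⟨C, hT.mono h1, h3⟩ h2)

open Classical in
/-- the apex -/
noncomputable def cc (T : Finset S) : Option (Irr M) :=
  if h : Sph M T ∧ T.Nonempty then some (exists_cc M ν h.1 h.2).choose else none

theorem cc_spec {T : Finset S} (hT : Sph M T) (hne : T.Nonempty) :
    ∃ c : Irr M, cc M ν T = some c ∧ c.1 ⊆ T ∧ (∀ a ∈ c.1, ∀ b ∈ T \ c.1, ¬ (diag M).Adj a b) ∧
      ∀ y ∈ T, ν y ≤ ν (mx M ν c) := by
  refine ⟨(exists_cc M ν hT hne).choose, ?_, (exists_cc M ν hT hne).choose_spec⟩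
  unfold cc
  rw [dif_pos ⟨hT, hne⟩]

open Classical in
/-- the subdivision of the simplex `T` -/
noncomputable def sdF (T : Finset S) : Finset (Irr M) → ZMod 2 :=
  if T = ∅ then Pi.single ∅ 1 else
    match cc M ν T with
    | none => 0
    | some c => cone2 c (∑ s ∈ T.attach, sdF (T.erase s.1))
termination_by T.card
decreasing_by exact Finset.card_erase_lt_of_mem s.2

theorem sdF_empty : sdF M ν ∅ = Pi.single ∅ 1 := by
  rw [sdF, if_pos rfl]

theorem sdF_some {T : Finset S} (hne : T.Nonempty) {c : Irr M} (hc : cc M ν T = some c) :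
    sdF M ν T = cone2 c (∑ s ∈ T, sdF M ν (T.erase s)) := by
  rw [sdF, if_neg hne.ne_empty, hc]
  show cone2 c _ = _
  rw [sum_attach T fun s => sdF M ν (T.erase s)]

theorem sum_erase_erase {A : Type} [AddCommGroup A] (h2 : ∀ a : A, a + a = 0) (F : Finset S → A)
    (T : Finset S) : ∑ s ∈ T, ∑ t ∈ T.erase s, F ((T.erase s).erase t) = 0 := by
  rw [sum_sigma']
  refine sum_involution (fun p _ => ⟨p.2, p.1⟩) ?_ ?_ ?_ ?_
  · rintro ⟨s, t⟩ hp
    show F ((T.erase s).erase t) + F ((T.erase t).erase s) = 0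
    rw [erase_right_comm, h2]
  · rintro ⟨s, t⟩ hp _ heq
    rw [mem_sigma, mem_erase] at hp
    have h3 : t = s := congrArg Sigma.fst heq
    exact hp.2.1 h3
  · rintro ⟨s, t⟩ hp
    rw [mem_sigma, mem_erase] at hp ⊢
    exact ⟨hp.2.2, hp.2.1.symm, hp.1⟩
  · rintro ⟨s, t⟩ _
    rfl

theorem bd_sdF [Fintype (Irr M)] (T : Finset S) (hT : Sph M T) :
    bd2 (sdF M ν T) = ∑ s ∈ T, sdF M ν (T.erase s) := by
  induction hn : T.card using Nat.strong_induction_on generalizing T with
  | _ n ih =>
    rcases T.eq_empty_or_nonempty with rfl | hne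
    · rw [sdF_empty, sum_empty]
      funext s
      unfold bd2
      apply sum_eq_zero
      intro v _
      rw [Pi.single_eq_of_ne (insert_ne_empty v s)]
    · obtain ⟨c, hc, -⟩ := cc_spec M ν hT hne
      rw [sdF_some M ν hne hc]
      have h1 : bd2 (∑ s ∈ T, sdF M ν (T.erase s)) = 0 := by
        rw [bd_sum2]
        have h2 : ∀ s ∈ T, bd2 (sdF M ν (T.erase s)) = ∑ t ∈ T.erase s, sdF M ν ((T.erase s).erase t) :=
          fun s hs => ih _ (hn ▸ card_erase_lt_of_mem hs) _ (hT.mono (erase_subset s T)) rfl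
        rw [sum_congr rfl h2]
        exact sum_erase_erase (fun a => CharTwo.add_self_eq_zero a) _ T
      funext s
      have h3 := bd_cone c (∑ s ∈ T, sdF M ν (T.erase s)) s
      rw [h1, cone_zero2, Pi.zero_apply, add_zero] at h3
      exact h3

theorem supp_sdF (T : Finset S) (hT : Sph M T) (α : Finset (Irr M)) (hα : sdF M ν T α ≠ 0) :
    (nG M).IsClique (α : Set (Irr M)) ∧ α.card = T.card ∧ ∀ X ∈ α, X.1 ⊆ T := by
  induction hn : T.card using Nat.strong_induction_on generalizing T α with
  | _ n ih =>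
    rcases T.eq_empty_or_nonempty with rfl | hne
    · rw [sdF_empty] at hα
      have h1 : α = ∅ := by
        by_contra h
        exact hα (Pi.single_eq_of_ne h _)
      subst h1
      simp at hn
      subst hn
      simp
    · obtain ⟨c, hc, hcT, hcl, -⟩ := cc_spec M ν hT hne
      rw [sdF_some M ν hne hc] at hα
      unfold cone2 at hα
      split_ifs at hα with hcα
      · rw [Finset.sum_apply] at hα
        obtain ⟨s, hs, hα⟩ := exists_ne_zero_of_sum_ne_zero hα
        obtain ⟨h1, h2, h3⟩ := ih _ (hn ▸ card_erase_lt_of_mem hs) (T.erase s)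
          (hT.mono (erase_subset s T)) _ hα rfl
        have h4 : ∀ X ∈ α, X.1 ⊆ T := by
          intro X hX
          by_cases hXc : X = c
          · rw [hXc]; exact hcT
          · exact (h3 X (mem_erase.2 ⟨hXc, hX⟩)).trans (erase_subset s T)
        refine ⟨?_, ?_, h4⟩
        · have h5 : ∀ X ∈ α, X ≠ c → (nG M).Adj X c := by
            intro X hX hXc
            refine ⟨hXc, ?_⟩
            have h6 : Disjoint c.1 X.1 ∨ X.1 ⊆ c.1 := X.2.2.closed fun a ha b hb hbc =>
              hcl a (mem_inter.1 ha).1 b (mem_sdiff.2 ⟨h4 X hX hb, hbc⟩)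
            rcases h6 with h6 | h6
            · right; right
              intro j hj k hk
              by_contra hne2
              exact hcl k hk j (mem_sdiff.2 ⟨h4 X hX hj, fun h7 => disjoint_left.1 h6 h7 hj⟩)
                ⟨fun h7 => disjoint_left.1 h6 hk (h7 ▸ hj), fun h7 => hne2 (by
                  rw [M.symmetric]; exact h7)⟩
            · exact Or.inl h6
          intro X hX Y hY hXY
          by_cases hXc : X = c
          · rw [hXc]
            exact (h5 Y hY (fun h => hXY (hXc.trans h.symm))).symm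
          · by_cases hYc : Y = c
            · rw [hYc]
              exact h5 X hX hXc
            · exact h1 (by simp [hXc, hX]) (by simp [hYc, hY]) hXY
        · have h5 : 0 < T.card := hne.card_pos
          rw [card_erase_of_mem hs, card_erase_of_mem hcα] at h2
          have h6 : 0 < α.card := card_pos.2 ⟨c, hcα⟩
          omega
      · exact absurd rfl hα

theorem pair_sdF [Fintype (Irr M)] (T : Finset S) (hT : Sph M T)
    (x : Finset S → ZMod 2) : ∑ α, pb2 (mx M ν) x α * sdF M ν T α = x T := by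
  induction hn : T.card using Nat.strong_induction_on generalizing T x with
  | _ n ih =>
    rcases T.eq_empty_or_nonempty with rfl | hne
    · rw [sdF_empty, sum_eq_single ∅]
      · rw [Pi.single_eq_same, mul_one]
        unfold pb2
        rw [if_pos (by simp), image_empty]
      · intro α _ hα
        rw [Pi.single_eq_of_ne hα, mul_zero]
      · intro h
        exact absurd (mem_univ _) h
    · obtain ⟨c, hc, hcT, hcl, hmax⟩ := cc_spec M ν hT hne
      rw [sdF_some M ν hne hc, pair_cone2]
      simp_rw [Finset.sum_apply, mul_sum]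
      rw [sum_comm]
      have h1 : ∀ s ∈ T, ∑ α, pb2 (mx M ν) (fun t => if mx M ν c ∈ t then 0 else
          x (insert (mx M ν c) t)) α * sdF M ν (T.erase s) α =
          if mx M ν c ∈ T.erase s then 0 else x (insert (mx M ν c) (T.erase s)) := fun s hs =>
        ih _ (hn ▸ card_erase_lt_of_mem hs) (T.erase s) (hT.mono (erase_subset s T)) _ rfl
      rw [sum_congr rfl h1]
      have hm : mx M ν c ∈ T := hcT (mx_mem M ν c)
      rw [sum_eq_single (mx M ν c)]
      · rw [if_neg (by simp), insert_erase hm]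
      · intro s _ hs
        rw [if_pos (mem_erase.2 ⟨hs.symm, hm⟩)]
      · intro h
        exact absurd hm h

end

theorem hl_of_hz (M : CoxeterMatrix S) [Fintype (Irr M)] {j : ℕ} (h : HZ (nG M) j) : HL M j := by
  classical
  set ν : S → ℕ := fun s => (Fintype.equivFin S s).1
  intro z hz hzb
  have hzb' : bd2 z = 0 := funext hzb
  set Z : Finset (Irr M) → ZMod 2 := ∑ T, z T • sdF M ν T with hZ
  have h1 : ∀ α, Z α = ∑ T, z T * sdF M ν T α := by
    intro α
    rw [hZ, Finset.sum_apply]
    rfl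
  have h2 : ∀ α, Z α ≠ 0 → (nG M).IsClique (α : Set (Irr M)) ∧ α.card = j := by
    intro α hα
    rw [h1] at hα
    obtain ⟨T, -, hT⟩ := exists_ne_zero_of_sum_ne_zero hα
    have h3 := hz T (left_ne_zero_of_mul hT)
    have h4 := supp_sdF M ν T h3.1 α (right_ne_zero_of_mul hT)
    exact ⟨h4.1, h4.2.1.trans h3.2⟩
  have h3 : bd2 Z = 0 := by
    rw [hZ, bd_sum2]
    funext α
    rw [Finset.sum_apply]
    have h4 : ∀ T : Finset S, bd2 (z T • sdF M ν T) α = cob2 (fun T => sdF M ν T α) T * z T := by
      intro T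
      rw [bd_smul2, Pi.smul_apply, smul_eq_mul]
      by_cases hT : z T = 0
      · rw [hT]; simp
      · rw [bd_sdF M ν T (hz T hT).1, Finset.sum_apply, mul_comm]
        rfl
    rw [sum_congr rfl fun T _ => h4 T, ← pair_bd2, hzb']
    simp
  obtain ⟨Y, hY1, hY2⟩ := h Z h2 (fun s => congrFun h3 s)
  have hY2' : bd2 Y = Z := funext hY2
  refine ⟨pf2 (mx M ν) Y, ?_, ?_⟩
  · intro T hT
    unfold pf2 at hT
    obtain ⟨α, -, hα⟩ := exists_ne_zero_of_sum_ne_zero hT
    have h4 := hY1 α (right_ne_zero_of_mul hα)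
    have h5 := left_ne_zero_of_mul hα
    unfold pb2 at h5
    split_ifs at h5 with h6
    · have h7 : α.image (mx M ν) = T := by
        by_contra h8
        exact h5 (Pi.single_eq_of_ne h8 _)
      constructor
      · refine (sph_clique M α h4.1).mono ?_
        rw [← h7]
        intro s hs
        obtain ⟨X, hX, rfl⟩ := mem_image.1 hs
        exact mem_biUnion.2 ⟨X, hX, mx_mem M ν X⟩
      · rw [← h7, card_image_of_injOn h6, h4.2]
    · exact absurd rfl h5
  · intro T
    have h4 : bd2 (pf2 (mx M ν) Y) = z := by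
      rw [← pf_bd2, hY2']
      apply ext_pair2
      intro x
      rw [pair_pf2]
      simp_rw [h1, mul_sum]
      rw [sum_comm]
      refine sum_congr rfl fun T _ => ?_
      by_cases hT : z T = 0
      · simp [hT]
      · rw [← pair_sdF M ν T (hz T hT).1 x, sum_mul]
        exact sum_congr rfl fun α _ => by ring
    exact congrFun h4 T

end Pool.Agent.H93.AA
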