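import Pool.Agent.H93.AA.Lift
import Pool.Agent.H42.NU.Exist
import Pool.Agent.H78.RC.Long
import Pool.Agent.H85.AA.Cross
import Pool.Agent.H85.AA.FullRoot
import Pool.Agent.H73.HVN.Parab

/-!
# Project AA: homomorphisms to the integers with the values `2 δ` on the elements `Δ_X ^ 2`

See (B) of note 3967. `Γ` is the pure Artin group.
-/

set_option autoImplicit false

open Finset

namespace Pool.Agent.H93.AA

open Pool.Agent.H4.FC Pool.Agent.H78.RC H42.NU Pool.Agent.H85.AA Pool.Agent.H73.HVN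

variable {S : Type} [Fintype S] [DecidableEq S]

private theorem isRf_of_mem (M : CoxeterMatrix S) {T : Finset S} : ∀ ω : List S,
    (∀ i ∈ ω, i ∈ T) → ∀ r ∈ M.toCoxeterSystem.leftInvSeq ω, IsRf M T r := by
  intro ω
  induction ω with
  | nil =>
    intro _ r hr
    exact absurd hr (List.not_mem_nil)
  | cons i ω ih =>
    intro hω r hr
    have hi : i ∈ T := hω i List.mem_cons_self
    have hr' : r ∈ M.toCoxeterSystem.simple i :: List.map (MulAut.conj
      (M.toCoxeterSystem.simple i)) (M.toCoxeterSystem.leftInvSeq ω) := hr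
    rw [M.toCoxeterSystem_simple] at hr'
    rcases List.mem_cons.1 hr' with rfl | hr'
    · exact ⟨1, one_mem _, i, hi, by rw [one_mul, inv_one, mul_one]⟩
    · obtain ⟨q, hq, rfl⟩ := List.mem_map.1 hr'
      have h1 := ih (fun j hj => hω j (List.mem_cons_of_mem _ hj)) q hq
      rw [MulAut.conj_apply]
      exact h1.conj (simple_mem_par M hi)

private theorem isReflection_of_isRf (M : CoxeterMatrix S) {T : Finset S} {r : M.Group}
    (h : IsRf M T r) : M.toCoxeterSystem.IsReflection r := by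
  obtain ⟨w, -, s, -, rfl⟩ := h
  exact ⟨w, s, by rw [M.toCoxeterSystem_simple]⟩

private theorem mem_par_of_isRf (M : CoxeterMatrix S) {T : Finset S} {r : M.Group}
    (h : IsRf M T r) : r ∈ par M T := by
  obtain ⟨w, hw, s, hs, rfl⟩ := h
  exact mul_mem (mul_mem hw (simple_mem_par M hs)) (inv_mem hw)

private theorem mem_WP (M : CoxeterMatrix S) {T : Finset S} {w : M.Group} (hw : w ∈ par M T) :
    w ∈ WP M.toCoxeterSystem (T : Set S) := by
  refine (Subgroup.closure_le (K := WP M.toCoxeterSystem (T : Set S))).2 ?_ hw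
  rintro x ⟨v, hv, rfl⟩
  refine Subgroup.subset_closure ⟨v, hv, ?_⟩
  rw [M.toCoxeterSystem_simple]

/-- the inversions of the longest element -/
private theorem mem_lis (M : CoxeterMatrix S) {T : Finset S} (hT : Sph M T) {ω : List S}
    (hω : M.toCoxeterSystem.IsReduced ω) (hw : lw M T = M.toCoxeterSystem.wordProd ω)
    (r : M.Group) : r ∈ M.toCoxeterSystem.leftInvSeq ω ↔ IsRf M T r := by
  have hl := lw_spec M hT
  constructor
  · refine fun h => isRf_of_mem M ω ?_ r h
    have h1 := mem_WP M hl.1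
    rw [hw] at h1
    exact fun i hi => mem_coe.1 (mem_of_isReduced M.toCoxeterSystem hω h1 i hi)
  · intro h
    have hr := isReflection_of_isRf M h
    have h1 : M.toCoxeterSystem.length (r * lw M T) ≤ M.toCoxeterSystem.length (lw M T) :=
      hl.2 _ (mul_mem (mem_par_of_isRf M h) hl.1)
    have h2 : M.toCoxeterSystem.length (r * lw M T) ≠ M.toCoxeterSystem.length (lw M T) :=
      hr.length_mul_right_ne _
    have h3 : M.toCoxeterSystem.length (M.toCoxeterSystem.wordProd ω.reverse * r) <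
        M.toCoxeterSystem.length (M.toCoxeterSystem.wordProd ω.reverse) := by
      rw [M.toCoxeterSystem.wordProd_reverse, ← hw, M.toCoxeterSystem.length_inv]
      have h4 : (lw M T)⁻¹ * r = (r * lw M T)⁻¹ := by
        rw [mul_inv_rev, hr.inv]
      rw [h4, M.toCoxeterSystem.length_inv]
      exact lt_of_le_of_ne h1 h2
    obtain ⟨j, hj, hjr⟩ := strong_exchange M.toCoxeterSystem hr h3
    rw [← M.toCoxeterSystem.wordProd_mul_getD_rightInvSeq] at hjr
    have h5 := mul_left_cancel hjr
    have hj' : j < (M.toCoxeterSystem.rightInvSeq ω.reverse).length := by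
      rw [M.toCoxeterSystem.length_rightInvSeq]
      exact hj
    rw [List.getD_eq_getElem _ 1 hj'] at h5
    have h6 : r ∈ M.toCoxeterSystem.rightInvSeq ω.reverse := by
      rw [h5]
      exact List.getElem_mem hj'
    rw [M.toCoxeterSystem.rightInvSeq_reverse, List.mem_reverse] at h6
    exact h6

section

open Classical in
/-- the crossing numbers of the squares -/
private theorem cross_xg (M : CoxeterMatrix S) {Ψ : BG M →* CW M.Group}
    (hΨ : ∀ s, Ψ (bgen M s) = cgen M.toCoxeterSystem.simple s) {T : Finset S} (hT : Sph M T) :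
    Ψ (dlt M T ^ 2) = (⟨Multiplicative.ofAdd fun r => if IsRf M T r then 2 else 0, 1⟩ :
      CW M.Group) := by
  obtain ⟨hred, hword⟩ := (M.toCoxeterSystem.exists_isReduced (lw M T)).choose_spec
  have h1 : dlt M T = ((M.toCoxeterSystem.exists_isReduced (lw M T)).choose.map
    (bgen M)).prod := rfl
  generalize (M.toCoxeterSystem.exists_isReduced (lw M T)).choose = ω at h1 hred hword
  have h2 : Ψ (dlt M T) = (⟨Multiplicative.ofAdd fun r => if IsRf M T r then 1 else 0,
      lw M T⟩ : CW M.Group) := by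
    rw [h1, cross_word hΨ ω, ← hword]
    apply SemidirectProduct.ext
    · show Multiplicative.ofAdd (fun r => ((M.toCoxeterSystem.leftInvSeq ω).count r : ℤ)) =
        Multiplicative.ofAdd fun r => if IsRf M T r then 1 else 0
      congr 1
      funext r
      have h3 := mem_lis M hT hred hword r
      rw [List.Nodup.count (hred.nodup_leftInvSeq)]
      by_cases h4 : IsRf M T r
      · rw [if_pos h4, if_pos (h3.2 h4)]
        rfl
      · rw [if_neg h4, if_neg fun h5 => h4 (h3.1 h5)]
        rfl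
    · rfl
  rw [pow_two, map_mul, h2]
  have hl := lw_spec M hT
  apply SemidirectProduct.ext
  · show Multiplicative.ofAdd ((fun r => if IsRf M T r then (1 : ℤ) else 0) +
      cjE (lw M T) fun r => if IsRf M T r then (1 : ℤ) else 0) =
      Multiplicative.ofAdd fun r => if IsRf M T r then 2 else 0
    congr 1
    funext r
    show (if IsRf M T r then (1 : ℤ) else 0) +
      (if IsRf M T ((lw M T)⁻¹ * r * lw M T) then (1 : ℤ) else 0) = if IsRf M T r then 2 else 0
    have h3 : IsRf M T ((lw M T)⁻¹ * r * lw M T) ↔ IsRf M T r := by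
      constructor
      · intro h
        have h4 := h.conj hl.1
        have h5 : lw M T * ((lw M T)⁻¹ * r * lw M T) * (lw M T)⁻¹ = r := by group
        rwa [h5] at h4
      · intro h
        have h4 := h.conj (inv_mem hl.1)
        rwa [inv_inv] at h4
    by_cases h4 : IsRf M T r
    · rw [if_pos h4, if_pos (h3.2 h4), if_pos h4]
      norm_num
    · rw [if_neg h4, if_neg fun h5 => h4 (h3.1 h5), if_neg h4, add_zero]
  · show lw M T * lw M T = 1
    exact lw_mul_self M hT

end

theorem exists_ex (M : CoxeterMatrix S) :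
    ∃ (Γ : Subgroup (BG M)) (ex : Irr M → Γ → ℤ), (∀ X g h, ex X (g * h) = ex X g + ex X h) ∧
      ∀ Y : Irr M, ∃ hY : xg M Y ∈ Γ, ∀ X : Irr M, ex X ⟨xg M Y, hY⟩ = if X = Y then 2 else 0 := by
  classical
  obtain ⟨Ψ, hΨ⟩ := exists_cross (M := M) M.toCoxeterSystem
  obtain ⟨Γ, hΓ⟩ : ∃ Γ : Subgroup (BG M), ∀ g, g ∈ Γ ↔ (Ψ g).right = 1 :=
    ⟨(SemidirectProduct.rightHom.comp Ψ).ker, fun g => by
      rw [MonoidHom.mem_ker]
      rfl⟩
  have hY : ∀ Y : Irr M, xg M Y ∈ Γ := by
    intro Y
    rw [hΓ]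
    unfold xg
    rw [cross_xg M hΨ Y.2.1]
  have hadd : ∀ (t : M.Group) (g h : Γ), Multiplicative.toAdd (Ψ (g * h : Γ)).left t =
      Multiplicative.toAdd (Ψ g).left t + Multiplicative.toAdd (Ψ h).left t := by
    intro t g h
    rw [Subgroup.coe_mul, map_mul, SemidirectProduct.mul_left, (hΓ g).1 g.2, map_one]
    rfl
  choose t ht htY using fun X : Irr M => exists_full_rf M X.2.1 X.2.2
  have hval : ∀ X Y : Irr M, Multiplicative.toAdd (Ψ (xg M Y)).left (t X) =
      if X.1 ⊆ Y.1 then 2 else 0 := by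
    intro X Y
    unfold xg
    rw [cross_xg M hΨ Y.2.1]
    show (if IsRf M Y.1 (t X) then (2 : ℤ) else 0) = _
    by_cases h : X.1 ⊆ Y.1
    · rw [if_pos h, if_pos ((htY X Y.1 Y.2.1).2 h)]
    · rw [if_neg h, if_neg fun h1 => h ((htY X Y.1 Y.2.1).1 h1)]
  have : Fintype (Irr M) := Fintype.ofFinite _
  have key : ∀ n : ℕ, ∀ X : Irr M, Fintype.card S - X.1.card = n → ∃ e : Γ → ℤ,
      (∀ g h, e (g * h) = e g + e h) ∧ ∀ Y : Irr M, e ⟨xg M Y, hY Y⟩ = if X = Y then 2 else 0 := by
    intro n
    induction n using Nat.strong_induction_on with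
    | _ n ih =>
      intro X hX
      have h1 : ∀ Z : Irr M, ∃ e : Γ → ℤ, X.1 ⊂ Z.1 → ((∀ g h, e (g * h) = e g + e h) ∧
          ∀ Y : Irr M, e ⟨xg M Y, hY Y⟩ = if Z = Y then 2 else 0) := by
        intro Z
        by_cases hZ : X.1 ⊂ Z.1
        · have h2 := card_lt_card hZ
          have h3 := card_le_univ Z.1
          obtain ⟨e, he⟩ := ih (Fintype.card S - Z.1.card) (by omega) Z rfl
          exact ⟨e, fun _ => he⟩
        · exact ⟨0, fun h => absurd h hZ⟩
      choose e he using h1
      refine ⟨fun g => Multiplicative.toAdd (Ψ g).left (t X) -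
        ∑ Z ∈ univ.filter (fun Z : Irr M => X.1 ⊂ Z.1), e Z g, fun g h => ?_, fun Y => ?_⟩
      · show Multiplicative.toAdd (Ψ (g * h : Γ)).left (t X) -
          ∑ Z ∈ univ.filter (fun Z : Irr M => X.1 ⊂ Z.1), e Z (g * h) =
          (Multiplicative.toAdd (Ψ g).left (t X) -
            ∑ Z ∈ univ.filter (fun Z : Irr M => X.1 ⊂ Z.1), e Z g) +
          (Multiplicative.toAdd (Ψ h).left (t X) -
            ∑ Z ∈ univ.filter (fun Z : Irr M => X.1 ⊂ Z.1), e Z h)
        rw [hadd, sum_congr rfl fun Z hZ => (he Z (mem_filter.1 hZ).2).1 g h, sum_add_distrib]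
        ring
      · show Multiplicative.toAdd (Ψ (xg M Y)).left (t X) -
          ∑ Z ∈ univ.filter (fun Z : Irr M => X.1 ⊂ Z.1), e Z ⟨xg M Y, hY Y⟩ = _
        rw [hval, sum_congr rfl fun Z hZ => (he Z (mem_filter.1 hZ).2).2 Y, sum_ite_eq']
        have hmem : ∀ Z : Irr M, Z ∈ univ.filter (fun Z : Irr M => X.1 ⊂ Z.1) ↔ X.1 ⊂ Z.1 :=
          fun Z => ⟨fun h => (mem_filter.1 h).2, fun h => mem_filter.2 ⟨mem_univ _, h⟩⟩
        by_cases h1 : X = Y
        · subst h1
          rw [if_pos Subset.rfl, if_neg fun h => (ssubset_irrefl _) ((hmem X).1 h), if_pos rfl]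
          rfl
        · rw [if_neg h1]
          by_cases h2 : X.1 ⊆ Y.1
          · have h3 : X.1 ⊂ Y.1 := lt_of_le_of_ne h2 fun h => h1 (Subtype.ext h)
            rw [if_pos h2, if_pos ((hmem Y).2 h3), sub_self]
          · rw [if_neg h2, if_neg fun h => h2 ((hmem Y).1 h).subset, sub_self]
  choose ex hex1 hex2 using fun X : Irr M => key _ X rfl
  exact ⟨Γ, ex, fun X g h => hex1 X g h, fun Y => ⟨hY Y, fun X => hex2 X Y⟩⟩

end Pool.Agent.H93.AA
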