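import Pool.Agent.H93.AA.Defs
import Pool.Agent.H42.NU.Mats
import Pool.Agent.H42.NU.Exist
import Pool.Agent.H85.AA.Lift

/-!
# Project AA: the positive lift is well defined (Matsumoto)
-/

set_option autoImplicit false

namespace Pool.Agent.H93.AA

open H42.NU

variable {S : Type} [Fintype S] [DecidableEq S]

theorem lft_isLift (M : CoxeterMatrix S) : IsLift M.toCoxeterSystem (bgen M) (lft M) := by
  obtain ⟨lift, hl⟩ := Pool.Agent.H85.AA.exists_lift M.toCoxeterSystem (bgen M) artin_bgen
  have h : lft M = lift := by
    funext w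
    obtain ⟨h1, h2⟩ := (M.toCoxeterSystem.exists_isReduced w).choose_spec
    have h3 := lift_wordProd hl h1
    rw [← h2] at h3
    rw [h3]
    rfl
  rw [h]
  exact hl

end Pool.Agent.H93.AA
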