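import Pool.Agent.H93.AA.Lift
import Pool.Agent.H78.RC.Long

/-!
# Project AA: parabolic factorisation of the elements `β_{T,J}` and their alternating sum

`bt_mul`: every `w ∈ W_T` without right descents in `I` is `u * v` with `u ∈ W_T` without right descents in `J`
and `v ∈ W_J` without right descents in `I`, in exactly one way, and `ℓ w = ℓ u + ℓ v` (H73/HVN/Parab:
`exists_min`, `length_mul_of_min`, `min_unique`), so `lft w = lft u * lft v` (H42/NU/Mats `lift_mul`).
`bt_alt`: an element `w` of `W_T` occurs in `β_{T,J}` iff `J` contains no right descent of `w`; the sum of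
`(-1) ^ |J|` over the `J` in `T` without right descents of `w` is zero unless all elements of `T` are right descents
of `w`; then `w` is the longest element (`lw_spec`, `neg_unique`, `descent_iff` in H78/RC).
-/

set_option autoImplicit false

open Finset

namespace Pool.Agent.H93.AA

open Pool.Agent.H4.FC Pool.Agent.H78.RC Pool.Agent.H73.HVN H42.NU

variable {S : Type}

theorem par_eq_WP (M : CoxeterMatrix S) (T : Finset S) :
    par M T = WP M.toCoxeterSystem (T : Set S) := by
  unfold par WP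
  congr 1
  ext w
  constructor
  · rintro ⟨v, hv, rfl⟩
    exact ⟨v, hv, rfl⟩
  · rintro ⟨v, hv, rfl⟩
    exact ⟨v, hv, rfl⟩

theorem mem_mn {M : CoxeterMatrix S} {T J : Finset S} (hT : Sph M T) {w : M.Group} :
    w ∈ mn M T J ↔ w ∈ WP M.toCoxeterSystem (T : Set S) ∧
      ∀ t ∈ J, ¬ M.toCoxeterSystem.IsRightDescent w t := by
  classical
  unfold mn
  rw [Finset.mem_filter, mem_parF hT, par_eq_WP]

variable [Fintype S] [DecidableEq S]

theorem bt_self (M : CoxeterMatrix S) {T : Finset S} (hT : Sph M T) : bt M T T = 1 := by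
  have h1 : mn M T T = {1} := by
    ext w
    rw [mem_mn hT, Finset.mem_singleton]
    constructor
    · rintro ⟨h1, h2⟩
      by_contra hne
      obtain ⟨s, hs⟩ := M.toCoxeterSystem.exists_rightDescent_of_ne_one hne
      exact h2 s (right_descent_mem M.toCoxeterSystem h1 hs) hs
    · rintro rfl
      exact ⟨one_mem _, fun t _ => M.toCoxeterSystem.not_isRightDescent_one t⟩
  unfold bt
  rw [h1, Finset.sum_singleton, M.toCoxeterSystem.length_one, pow_zero, one_smul,
    (lft_isLift M).one, map_one]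

omit [Fintype S] [DecidableEq S] in
private theorem desc_iff (M : CoxeterMatrix S) {J : Finset S} {u v : M.Group}
    (hu : ∀ i ∈ (J : Set S), ¬ M.toCoxeterSystem.IsRightDescent u i)
    (hv : v ∈ WP M.toCoxeterSystem (J : Set S)) {t : S} (ht : t ∈ J) :
    M.toCoxeterSystem.IsRightDescent (u * v) t ↔ M.toCoxeterSystem.IsRightDescent v t := by
  have h1 := length_mul_of_min M.toCoxeterSystem hu hv
  have h2 := length_mul_of_min M.toCoxeterSystem hu
    (mul_mem hv ((simple_mem_WP_iff M.toCoxeterSystem).2 (Finset.mem_coe.2 ht)))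
  unfold CoxeterSystem.IsRightDescent
  rw [mul_assoc]
  omega

theorem bt_mul (M : CoxeterMatrix S) {T J I : Finset S} (hT : Sph M T) (hJ : J ⊆ T) (hI : I ⊆ J) :
    bt M T J * bt M J I = bt M T I := by
  have hJs : Sph M J := hT.mono hJ
  set cs := M.toCoxeterSystem with hcs
  have hmono : WP cs (J : Set S) ≤ WP cs (T : Set S) := by
    rw [← par_eq_WP, ← par_eq_WP]
    exact par_mono M hJ
  unfold bt
  rw [Finset.sum_mul_sum, ← Finset.sum_product']
  refine Finset.sum_bij (fun p _ => p.1 * p.2) ?_ ?_ ?_ ?_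
  · rintro ⟨u, v⟩ hp
    rw [Finset.mem_product, mem_mn hT, mem_mn hJs] at hp
    obtain ⟨⟨hu, hu'⟩, hv, hv'⟩ := hp
    rw [mem_mn hT]
    exact ⟨mul_mem hu (hmono hv), fun t ht hd => hv' t ht ((desc_iff M hu' hv (hI ht)).1 hd)⟩
  · rintro ⟨u, v⟩ hp ⟨u', v'⟩ hp' h
    rw [Finset.mem_product, mem_mn hT, mem_mn hJs] at hp hp'
    obtain ⟨h1, h2⟩ := min_unique cs (L := (J : Set S)) hp.1.2 hp'.1.2 hp.2.1 hp'.2.1 h
    exact Prod.ext h1 h2
  · intro w hw
    rw [mem_mn hT] at hw
    obtain ⟨u, l, hu, hl, rfl⟩ := exists_min cs (J : Set S) w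
    have hu' : ∀ t ∈ J, ¬ cs.IsRightDescent u t := fun t ht => hu t (Finset.mem_coe.2 ht)
    refine ⟨(u, l), ?_, rfl⟩
    rw [Finset.mem_product, mem_mn hT, mem_mn hJs]
    refine ⟨⟨?_, hu'⟩, hl, fun t ht hd => hw.2 t ht ((desc_iff M hu hl (hI ht)).2 hd)⟩
    have := mul_mem hw.1 (inv_mem (hmono hl))
    rwa [mul_inv_cancel_right] at this
  · rintro ⟨u, v⟩ hp
    rw [Finset.mem_product, mem_mn hT, mem_mn hJs] at hp
    obtain ⟨⟨hu, hu'⟩, hv, hv'⟩ := hp
    have h1 := length_mul_of_min cs hu' hv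
    dsimp only
    rw [h1, lift_mul (lft_isLift M) h1, map_mul, pow_add, smul_mul_smul_comm]

theorem bt_alt (M : CoxeterMatrix S) {T : Finset S} (hT : Sph M T) :
    ∑ J ∈ T.powerset, (-1 : ℤ) ^ J.card • bt M T J =
      (-1 : ℤ) ^ M.toCoxeterSystem.length (lw M T) • MonoidAlgebra.of ℤ (BG M) (dlt M T) := by
  classical
  set cs := M.toCoxeterSystem with hcs
  have hlw := lw_spec M hT
  have h1 : ∀ J, bt M T J = ∑ w ∈ parF M T, if (∀ t ∈ J, ¬ cs.IsRightDescent w t) then
      (-1 : ℤ) ^ cs.length w • MonoidAlgebra.of ℤ (BG M) (lft M w) else 0 := by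
    intro J
    unfold bt mn
    rw [Finset.sum_filter]
    refine Finset.sum_congr rfl fun w _ => ?_
    congr 1
  simp_rw [h1, Finset.smul_sum]
  rw [Finset.sum_comm]
  have h2 : ∀ w ∈ parF M T, ∑ J ∈ T.powerset, (-1 : ℤ) ^ J.card •
      (if (∀ t ∈ J, ¬ cs.IsRightDescent w t) then
        (-1 : ℤ) ^ cs.length w • MonoidAlgebra.of ℤ (BG M) (lft M w) else 0) =
      if w = lw M T then (-1 : ℤ) ^ cs.length w • MonoidAlgebra.of ℤ (BG M) (lft M w) else 0 := by
    intro w hw
    rw [mem_parF hT] at hw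
    have h3 : ∑ J ∈ T.powerset, (-1 : ℤ) ^ J.card •
        (if (∀ t ∈ J, ¬ cs.IsRightDescent w t) then
          (-1 : ℤ) ^ cs.length w • MonoidAlgebra.of ℤ (BG M) (lft M w) else 0) =
        ∑ J ∈ (T.filter fun t => ¬ cs.IsRightDescent w t).powerset, (-1 : ℤ) ^ J.card •
          ((-1 : ℤ) ^ cs.length w • MonoidAlgebra.of ℤ (BG M) (lft M w)) := by
      have h4 : (T.filter fun t => ¬ cs.IsRightDescent w t).powerset =
          T.powerset.filter fun J => ∀ t ∈ J, ¬ cs.IsRightDescent w t := by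
        ext J
        simp only [Finset.mem_powerset, Finset.mem_filter]
        constructor
        · intro h
          exact ⟨fun t ht => (Finset.mem_filter.1 (h ht)).1, fun t ht =>
            (Finset.mem_filter.1 (h ht)).2⟩
        · rintro ⟨h, h'⟩ t ht
          exact Finset.mem_filter.2 ⟨h ht, h' t ht⟩
      rw [h4, Finset.sum_filter]
      refine Finset.sum_congr rfl fun J _ => ?_
      split_ifs
      · rfl
      · rw [smul_zero]
    rw [h3, ← Finset.sum_smul, Finset.sum_powerset_neg_one_pow_card]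
    have h5 : (T.filter fun t => ¬ cs.IsRightDescent w t) = ∅ ↔ w = lw M T := by
      rw [Finset.filter_eq_empty_iff]
      constructor
      · intro h
        refine neg_unique M hT hw (fun s hs => (descent_iff M w s).1 ?_) hlw.1
          (fun s hs => hlw.neg hs)
        exact not_not.1 (h hs)
      · rintro rfl t ht
        exact not_not.2 ((descent_iff M _ t).2 (hlw.neg ht))
    by_cases h6 : w = lw M T
    · rw [if_pos (h5.2 h6), if_pos h6, one_smul]
    · rw [if_neg (fun h => h6 (h5.1 h)), if_neg h6, zero_smul]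
  rw [Finset.sum_congr rfl h2, Finset.sum_ite_eq' (parF M T) (lw M T), if_pos ((mem_parF hT _).2 hlw.1)]
  rfl

end Pool.Agent.H93.AA
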