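import Pool.Agent.H93.AA.L2
import Pool.Agent.H93.AA.Ex
import Pool.Agent.H93.AA.Sd
import Pool.Agent.H65.RM.Artin

/-!
# Project AA: the main theorem

`P` = a subgroup of the Artin group which contains a power of every `Δ_T ^ 2` and acts properly. Let `k` be a common
exponent, `A = Γ ∩ P` (as a subgroup of `P`), `W = Irr M × Bool`, `O = oct (nG M)`, `e (X, b) = xg X ^ (± k)`,
`ex (X, b) = ± ex X`: `van_of_act` (H65/RM) gives `VanKampenZero (oct (nG M)) k`, then `van_pair` and
`hz_of_pairing` give `HZ (nG M) (k + 1)`, `hl_of_hz` and `l2zero_of_hl` the theorem.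
-/

set_option autoImplicit false

open Finset Pointwise

namespace Pool.Agent.H93.AA

open Pool.Agent.H4.FC Pool.Agent.H78.RC H42.NU Pool.Agent.H65.RA Pool.Agent.H65.RM Pool.Agent.H37.TM

/-- the form of the obstructor theorem for the octahedralisation, with values `c δ` of the homomorphisms -/
theorem van_oct_of_act_c {A V U : Type} [Group A] [DecidableEq V] [Fintype V] [DecidableEq U]
    [MulAction A U] (G : SimpleGraph V) (a : V → A)
    (hc : ∀ u v, G.Adj u v → a u * a v = a v * a u) (ex : V → A → ℤ)
    (hex : ∀ v g h, ex v (g * h) = ex v g + ex v h) (c : ℤ) (hc0 : 0 < c)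
    (h1 : ∀ v u, ex v (a u) = if u = v then c else 0)
    {K B : Set (Finset U)} {n k : ℕ} (hM : Mfd K B n) (hK : Acyc K) (hA : PAct A K B)
    (hn : n ≤ 2 * k + 1) : Pool.Agent.H85.VK.VanKampenZero (oct G) k := by
  have hone : ∀ v, ex v 1 = 0 := by
    intro v
    have := hex v 1 1
    rw [mul_one] at this
    omega
  have hinv : ∀ v g, ex v g⁻¹ = - ex v g := by
    intro v g
    have := hex v g⁻¹ g
    rw [inv_mul_cancel, hone] at this
    omega
  refine van_of_act (oct G) (fun w => if w.2 then a w.1 else (a w.1)⁻¹) ?_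
    (fun w g => if w.2 then ex w.1 g else - ex w.1 g) ?_ ?_ ?_ ?_ hM hK hA hn
  · rintro ⟨u, b⟩ ⟨v, c⟩ h
    have h4 : Commute (a u) (a v) := hc u v h
    cases b <;> cases c
    · exact (h4.inv_inv).eq
    · exact (h4.inv_left).eq
    · exact (h4.inv_right).eq
    · exact h4.eq
  · rintro ⟨v, b⟩ g h
    cases b
    · simp only [Bool.false_eq_true, if_false]
      rw [hex]
      ring
    · simp only [if_true]
      exact hex v g h
  · rintro ⟨v, b⟩
    cases b
    · simp only [Bool.false_eq_true, if_false]
      rw [hinv, h1, if_pos rfl]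
      omega
    · simp only [if_true]
      rw [h1, if_pos rfl]
      exact hc0
  · rintro ⟨v, b⟩ ⟨u, c'⟩ hne
    cases b <;> cases c'
    · simp only [Bool.false_eq_true, if_false]
      rw [hinv, h1]
      have : u ≠ v := fun h => hne (by rw [h])
      rw [if_neg this]
      omega
    · simp only [Bool.false_eq_true, if_false, if_true]
      rw [h1]
      split_ifs <;> omega
    · simp only [Bool.false_eq_true, if_false, if_true]
      rw [hinv, h1]
      split_ifs <;> omega
    · simp only [if_true]
      rw [h1]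
      have : u ≠ v := fun h => hne (by rw [h])
      rw [if_neg this]
  · rintro ⟨v, b⟩ ⟨u, c'⟩ h
    have hne : u ≠ v := by
      intro huv
      exact G.loopless.irrefl v (by simpa [oct, huv] using h)
    cases b <;> cases c'
    · simp only [Bool.false_eq_true, if_false]
      rw [hinv, h1, if_neg hne]
      omega
    · simp only [Bool.false_eq_true, if_false, if_true]
      rw [h1, if_neg hne]
      omega
    · simp only [Bool.false_eq_true, if_false, if_true]
      rw [hinv, h1, if_neg hne]
      omega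
    · simp only [if_true]
      rw [h1, if_neg hne]

variable {S : Type} [Fintype S] [DecidableEq S] {U : Type} [DecidableEq U]

/-- a proper action restricts to subgroups -/
theorem PAct.sub {P : Type} [Group P] [MulAction P U] {K B : Set (Finset U)} (h : PAct P K B)
    (A : Subgroup P) : PAct A K B := by
  refine ⟨fun g s hs => h.K_mem g.1 s hs, fun g s hs => h.B_mem g.1 s hs, fun u w hu => ?_⟩
  have h1 := h.proper u w hu
  exact (h1.preimage (f := fun g : A => (g : P)) (fun a _ b _ hab => Subtype.ext hab))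

theorem hl_of_act (M : CoxeterMatrix S) (P : Subgroup (BG M))
    (hP : ∀ X : Irr M, ∃ k : ℕ, 0 < k ∧ xg M X ^ k ∈ P) [MulAction P U] {K B : Set (Finset U)} {n : ℕ}
    (hM : Mfd K B n) (hK : Acyc K) (hA : PAct P K B) (i : ℕ) (hi : n < 2 * i) : HL M i := by
  classical
  have hfin : Finite (Irr M) := inferInstance
  let fI : Fintype (Irr M) := Fintype.ofFinite _
  obtain ⟨k, rfl⟩ : ∃ k, i = k + 1 := ⟨i - 1, by omega⟩
  choose m hm0 hmP using hP
  set N : ℕ := ∏ X, m X with hN
  have hN0 : 0 < N := Finset.prod_pos fun X _ => hm0 X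
  have hNP : ∀ X, xg M X ^ N ∈ P := by
    intro X
    obtain ⟨r, hr⟩ := Finset.dvd_prod_of_mem m (Finset.mem_univ X)
    rw [hN, hr, pow_mul]
    exact P.pow_mem (hmP X) r
  obtain ⟨Γ, ex, hex, hval⟩ := exists_ex M
  choose hY hv using hval
  have hone : ∀ X, ex X 1 = 0 := by
    intro X
    have := hex X 1 1
    rw [mul_one] at this
    omega
  have hpow : ∀ X (g : Γ) (r : ℕ), ex X (g ^ r) = r * ex X g := by
    intro X g r
    induction r with
    | zero => simp [hone]
    | succ r ih =>
      rw [pow_succ, hex, ih]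
      push_cast
      ring
  -- the group `Γ ∩ P`, as a subgroup of `P`
  let A : Subgroup P := Γ.subgroupOf P
  let toG : A → Γ := fun g => ⟨(g : P), g.2⟩
  have htoG : ∀ g h : A, toG (g * h) = toG g * toG h := fun g h => rfl
  let a : Irr M → A := fun X => ⟨⟨xg M X ^ N, hNP X⟩, by
    show xg M X ^ N ∈ Γ
    exact Γ.pow_mem (hY X) N⟩
  have hva : ∀ v u, ex v (toG (a u)) = if u = v then 2 * (N : ℤ) else 0 := by
    intro v u
    have h1 : toG (a u) = (⟨xg M u, hY u⟩ : Γ) ^ N := Subtype.ext rfl
    rw [h1, hpow, hv]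
    by_cases huv : v = u
    · rw [if_pos huv, if_pos huv.symm]
      ring
    · rw [if_neg huv, if_neg (fun h => huv h.symm)]
      ring
  have hvan := van_oct_of_act_c (nG M) a (fun u v huv => by
      have h1 : Commute (xg M u) (xg M v) := xg_comm M huv
      exact Subtype.ext (Subtype.ext (h1.pow_pow N N).eq))
    (fun v g => ex v (toG g)) (fun v g h => by rw [htoG, hex]) (2 * (N : ℤ)) (by positivity) hva
    hM hK (PAct.sub hA A) (k := k) (by omega)
  refine hl_of_hz M (Pool.Agent.H75.Oct.hz_of_pairing (nG M) (k + 1) fun x z hx hz hdz => ?_)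
  exact van_pair hvan x z hx hz hdz

theorem l2zero_of_act (M : CoxeterMatrix S) (P : Subgroup (BG M))
    (hP : ∀ X : Irr M, ∃ k : ℕ, 0 < k ∧ xg M X ^ k ∈ P) [MulAction P U] {K B : Set (Finset U)} {n : ℕ}
    (hM : Mfd K B n) (hK : Acyc K) (hA : PAct P K B) (i : ℕ) (hi : n < 2 * i) : L2ZeroM M i :=
  l2zero_of_hl M (hl_of_act M P hP hM hK hA i hi)

end Pool.Agent.H93.AA
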